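import Pool.Agent.Helper64.FL.StG

/-! fl_mods CNB: basic facts on `Cn`. -/

set_option autoImplicit false

namespace Pool.Agent.Helper61.FL

open Pool.Agent.Helper64.CT Pool.Agent.Helper64.FL

variable {V : Type} {G : SimpleGraph V}

theorem cn_mem {S : Set V} {x y : V} (h : Cn G S x y) : y ∈ S := by
  obtain ⟨hx, hr⟩ := h
  induction hr with
  | refl => exact hx
  | tail _ h2 _ => exact h2.2

theorem cn_trans {S : Set V} {x y z : V} (h1 : Cn G S x y) (h2 : Cn G S y z) : Cn G S x z :=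
  ⟨h1.1, h1.2.trans h2.2⟩

theorem cn_adj {S : Set V} {x y : V} (hx : x ∈ S) (hy : y ∈ S) (h : G.Adj x y) : Cn G S x y :=
  ⟨hx, Relation.ReflTransGen.single ⟨h, hy⟩⟩

theorem cn_refl {S : Set V} {x : V} (hx : x ∈ S) : Cn G S x x :=
  ⟨hx, Relation.ReflTransGen.refl⟩

theorem cn_symm {S : Set V} {x y : V} (h : Cn G S x y) : Cn G S y x := by
  obtain ⟨hx, hr⟩ := h
  induction hr with
  | refl => exact cn_refl hx
  | @tail b c hxb hbc ih =>
    have hb : b ∈ S := cn_mem ⟨hx, hxb⟩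
    exact cn_trans (cn_adj hbc.2 hb hbc.1.symm) ih

theorem cn_mono {S T : Set V} {x y : V} (hST : S ⊆ T) (h : Cn G S x y) : Cn G T x y :=
  ⟨hST h.1, Relation.ReflTransGen.mono (fun _ _ hab => ⟨hab.1, hST hab.2⟩) _ _ h.2⟩

theorem cn_of_comp {c x y : V} (h : Comp G c x y) : Cn G (Far G c) x y := by
  obtain ⟨hx, hy, hr⟩ := h
  have hr' := (SimpleGraph.reachable_iff_reflTransGen _ _).1 hr
  have key : ∀ z : (Far G c : Set V),
      Relation.ReflTransGen (G.induce (Far G c)).Adj ⟨x, hx⟩ z → Cn G (Far G c) x z.1 := by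
    intro z hz
    induction hz with
    | refl => exact cn_refl hx
    | @tail b d _ hbd ih => exact cn_trans ih (cn_adj b.2 d.2 hbd)
  exact key ⟨y, hy⟩ hr'

theorem comp_of_cn {c x y : V} (h : Cn G (Far G c) x y) : Comp G c x y := by
  obtain ⟨hx, hr⟩ := h
  induction hr with
  | refl => exact ⟨hx, hx, SimpleGraph.Reachable.refl _⟩
  | @tail b d _ hbd ih =>
    obtain ⟨hx', hb, hr'⟩ := ih
    refine ⟨hx', hbd.2, hr'.trans ?_⟩
    exact SimpleGraph.Adj.reachable (show (G.induce (Far G c)).Adj ⟨b, hb⟩ ⟨d, hbd.2⟩ from hbd.1)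

theorem cn_KC {c x y : V} (h : Comp G c x y) : Cn G (KC G c x) x y := by
  obtain ⟨hx, hr⟩ := cn_of_comp h
  have key : ∀ z, Relation.ReflTransGen (fun u w => G.Adj u w ∧ w ∈ Far G c) x z →
      Cn G (KC G c x) x z := by
    intro z hz
    induction hz with
    | refl => exact cn_refl (comp_of_cn (cn_refl hx))
    | @tail b d hxb hbd ih =>
      have hb : Cn G (Far G c) x b := ⟨hx, hxb⟩
      have hd : Cn G (Far G c) x d := cn_trans hb (cn_adj (cn_mem hb) hbd.2 hbd.1)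
      exact cn_trans ih (cn_adj (comp_of_cn hb) (comp_of_cn hd) hbd.1)
  exact key y hr

theorem cn_of_ipt {S : Set V} : ∀ (l : List V) (a w : V), IPt G (a :: (l ++ [w])) → a ∈ S →
    w ∈ S → (∀ u ∈ l, u ∈ S) → Cn G S a w
  | [], a, w, h, ha, hw, _ => by
    have h1 := h.2.1 w (by simp)
    exact cn_adj ha hw h1
  | b :: l, a, w, h, ha, hw, hl => by
    have h1 : G.Adj a b := h.2.1 b (by simp)
    have hb : b ∈ S := hl b (by simp)
    exact cn_trans (cn_adj ha hb h1)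
      (cn_of_ipt l b w h.2.2.2 hb hw fun u hu => hl u (by simp [hu]))

theorem st_CNB : ST_CNB := by
  intro V G
  refine ⟨fun S x y h => ⟨cn_mem h, cn_symm h⟩, fun S x y z h1 h2 => cn_trans h1 h2,
    fun S T x y hST h => cn_mono hST h, fun S x y hx hy h => cn_adj hx hy h,
    fun c x y => ⟨cn_of_comp, comp_of_cn⟩, fun c x y h => cn_KC h, ?_⟩
  rintro S a l w (⟨rfl, rfl⟩ | ⟨-, h⟩) ⟨ha, hw, hl⟩
  · exact cn_refl ha
  · exact cn_of_ipt l a w h ha hw hl

end Pool.Agent.Helper61.FL
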