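import Pool.Agent.Helper64.FL.StH

/-! fl_mods STB: two vertices with two common neighbours in a diamond-free graph. -/

set_option autoImplicit false

namespace Pool.Agent.Helper61.FL

open Pool.Agent.Helper64.CT Pool.Agent.Helper64.DT Pool.Agent.Helper64.FL

theorem st_STB : ST_STB := by
  intro V G hDF x u n m hux hnm hxn hxm hun hum
  constructor
  · intro hxu hnm'
    exact hxu (hDF n m x u hnm' hxn.symm hxm.symm hun.symm hum.symm hux.symm)
  · intro hnm' hxu
    exact hnm' (hDF x u n m hxu hxn hun hxm hum hnm)

end Pool.Agent.Helper61.FL
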